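import Pool.Agent.H72.HR.Targets

namespace Pool.Agent.H81.HR

open Pool.Agent.H72.HR

theorem pf_PAR : T_PAR := by
  intro r d c w h hcd
  have hwc : w < c := by
    by_contra hc
    rw [Nat.sub_eq_zero_of_le (not_lt.1 hc)] at h
    simp at h
  obtain ⟨u, rfl⟩ : ∃ u, c = w + u := ⟨c - w, by omega⟩
  rw [Nat.add_sub_cancel_left] at h ⊢
  have hu : 1 ≤ u := by omega
  have hr : 1 ≤ r := by
    rcases Nat.eq_zero_or_pos r with h0 | h0
    · subst h0; simp at h
    · exact h0
  have hbig : r + 2 ≤ u * ((r + d) * (r + 1) + 1) := by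
    calc r + 2 = 1 * (1 * (r + 1) + 1) := by ring
      _ ≤ u * ((r + d) * (r + 1) + 1) := by
        apply Nat.mul_le_mul hu
        apply Nat.add_le_add_right
        exact Nat.mul_le_mul_right _ (by omega)
  obtain ⟨A, hA⟩ : ∃ A, u * ((r + d) * (r + 1) + 1) = A + (r + 1) :=
    ⟨u * ((r + d) * (r + 1) + 1) - (r + 1), by omega⟩
  have hd : 1 ≤ d := by omega
  refine ⟨A, 1, d * ((r + d) * (r + 1) + 1), ?_, ?_, le_refl 1, ?_, ?_, ?_⟩
  · omega
  · have : u * ((r + d) * (r + 1) + 1) ≤ d * ((r + d) * (r + 1) + 1) :=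
      Nat.mul_le_mul_right _ (by omega)
    omega
  · nlinarith
  · have : u * (d * ((r + d) * (r + 1) + 1)) = d * (A + (r + 1)) := by rw [← hA]; ring
    rw [this]
    nlinarith
  · have h1 : d * w + 1 ≤ r * u := h
    have h2 : (r + d) * (u * ((r + d) * (r + 1) + 1)) = (r + d) * (A + (r + 1)) := by rw [hA]
    have h3 : (d * w + 1) * ((r + d) * (r + 1) + 1) ≤ r * u * ((r + d) * (r + 1) + 1) :=
      Nat.mul_le_mul_right _ h1
    nlinarith

end Pool.Agent.H81.HR
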